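import Pool.Agent.H26.AR1

set_option autoImplicit false

namespace Pool.Agent.Results.MP_7faad7_pr.FiniteIndex

open MeasureTheory Filter Topology Finset Pool.Agent.H26.AR

def ARpair {G : Type} [Group G] (μ : PMF G) : Prop :=
  letI : MeasurableSpace G := ⊤
  ∀ n, 1 ≤ n → ∀ᵐ ζ ∂(Measure.infinitePi fun _ : ℕ => μ.toMeasure),
    Subsemigroup.closure (Set.range fun k => ((List.range (n + k)).map ζ).prod) = ⊤

def AR (G : Type) [Group G] : Prop :=
  ∀ μ : PMF G, (∀ g, μ g⁻¹ = μ g) → Subgroup.closure μ.support = ⊤ → ARpair μ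

@[ext] structure D where
  v : ℕ →₀ ℤ
  s : ℤˣ

noncomputable instance : Mul D := ⟨fun x y => ⟨x.v + x.s • y.v, x.s * y.s⟩⟩
instance : One D := ⟨⟨0, 1⟩⟩
noncomputable instance : Inv D := ⟨fun x => ⟨-(x.s⁻¹ • x.v), x.s⁻¹⟩⟩

@[simp] lemma mul_v (x y : D) : (x * y).v = x.v + x.s • y.v := rfl
@[simp] lemma mul_s (x y : D) : (x * y).s = x.s * y.s := rfl
@[simp] lemma one_v : (1 : D).v = 0 := rfl
@[simp] lemma one_s : (1 : D).s = 1 := rfl
@[simp] lemma inv_v (x : D) : x⁻¹.v = -(x.s⁻¹ • x.v) := rfl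
@[simp] lemma inv_s (x : D) : x⁻¹.s = x.s⁻¹ := rfl

noncomputable instance : Group D := Group.ofLeftAxioms
  (fun x y z => D.ext (by simp [mul_smul, add_assoc]) (by simp [mul_assoc]))
  (fun x => D.ext (by simp) (by simp)) (fun x => D.ext (by simp) (by simp))

instance : Countable D :=
  (show Function.Injective fun x : D => (x.v, x.s) from
    fun _ _ h => D.ext (Prod.mk.inj h).1 (Prod.mk.inj h).2).countable

noncomputable def pr : D →* ℤˣ where
  toFun x := x.s
  map_one' := rfl
  map_mul' _ _ := rfl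

lemma inv_self (x : D) (h : x.s ≠ 1) : x⁻¹ = x := by
  have := (Int.units_eq_one_or x.s).resolve_left h
  exact D.ext (by simp [this]) (by simp [this])

lemma AR_D : AR D := by
  intro μ _ hgen n _
  letI : MeasurableSpace D := ⊤
  haveI : DiscreteMeasurableSpace D := ⟨fun _ => trivial⟩
  have hex : ∃ g ∈ μ.support, g.s ≠ 1 := by
    by_contra hc
    push Not at hc
    have : Subgroup.closure μ.support ≤ pr.ker := (Subgroup.closure_le _).mpr hc
    have h2 : (⟨0, -1⟩ : D) ∈ pr.ker := this (hgen ▸ trivial)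
    exact absurd (show (-1 : ℤˣ) = 1 from h2) (by decide)
  obtain ⟨g, hg, hs⟩ := hex
  filter_upwards [atoms μ] with ζ hζ
  have hS : ∀ k, ((List.range (n + k)).map ζ).prod ∈ Subsemigroup.closure
      (Set.range fun k => ((List.range (n + k)).map ζ).prod) :=
    fun k => Subsemigroup.subset_closure ⟨k, rfl⟩
  refine top_of_inv ζ n _ hgen (fun g hg => hζ g hg n) _ hS ?_
  generalize Subsemigroup.closure (M := D) _ = S at hS ⊢
  obtain ⟨r, hr, hrs⟩ : ∃ r ∈ S, r.s ≠ 1 := by
    obtain ⟨m, hm, rfl⟩ := hζ g hg n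
    obtain ⟨k, rfl⟩ := Nat.exists_eq_add_of_le hm
    by_cases h : (((List.range (n + k)).map ζ).prod).s = 1
    · refine ⟨_, hS (k + 1), ?_⟩
      rwa [← add_assoc, List.range_succ, List.map_append, List.prod_append, mul_s, h, one_mul,
        List.map_singleton, List.prod_singleton]
    · exact ⟨_, hS k, h⟩
  intro x hx
  by_cases h : x.s = 1
  · have h1 := inv_self (x * r) (by rwa [mul_s, h, one_mul])
    have : x⁻¹ = r * (x * r) := by rw [← h1, mul_inv_rev, mul_inv_cancel_left]
    rw [this]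
    exact S.mul_mem hr (S.mul_mem hx hr)
  · rwa [inv_self x h]

noncomputable def rho : pr.ker →* G0 where
  toFun x := Multiplicative.ofAdd x.1.v
  map_one' := rfl
  map_mul' x y := by
    have : x.1.s = 1 := x.2
    simp [this]

noncomputable def phi (x : ℕ × Bool) : pr.ker := ⟨⟨Finsupp.single x.1 (sg x.2), 1⟩, rfl⟩

theorem result : ∃ (G : Type) (_ : Group G) (_ : Countable G) (H : Subgroup G),
    AR G ∧ H.FiniteIndex ∧ ¬ AR H := by
  refine ⟨D, inferInstance, inferInstance, pr.ker, AR_D, inferInstance, fun h => ?_⟩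
  have h1 := (tail 2 two_pos).symm phi fun k b =>
    Subtype.ext (D.ext (by simp [phi, sg_not]) (by simp [phi]))
  have h2 : Subgroup.closure ((tail 2 two_pos).nu.map phi).support = ⊤ := by
    have hi : Function.Injective rho := fun x y h =>
      Subtype.ext (D.ext (Multiplicative.ofAdd.injective h) ((show x.1.s = 1 from x.2).trans
        (show y.1.s = 1 from y.2).symm))
    have := gen_G0 ((Subgroup.closure ((tail 2 two_pos).nu.map phi).support).map rho) fun k =>
      ⟨phi (k, true), Subgroup.subset_closure (by rw [Tail.supp]; exact ⟨_, rfl⟩), rfl⟩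
    rw [eq_top_iff]
    intro x _
    exact (Subgroup.mem_map_iff_mem hi).mp (this ▸ trivial)
  letI : MeasurableSpace pr.ker := ⊤
  exact notAR0 phi rho (fun _ => rfl) (h _ h1 h2 1 le_rfl)

end Pool.Agent.Results.MP_7faad7_pr.FiniteIndex
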